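import Pool.Agent.U397.TM.FR
import Pool.Agent.U397.TM.FT

set_option autoImplicit false

/-! # The monodromy conjecture for forms over products of generic matrices

Let `n_0 ≤ n_1 ≤ ⋯` be positive integers, `A_i`, `i < L`, generic matrices of the sizes
`n_i × n_{i+1}` (all entries are different variables, `Var n L`), and for `t < T` let `ℓ_t < L` and
`F_t = ∑_{r,c} y_{t,r,c} (A_0 A_1 ⋯ A_{ℓ_t})_{r,c}`, with further variables `y_{t,r,c}`, separate for
each `t`. Let `f = ∏ t, F_t ^ a_t`, `a_t ≥ 1` (`form`, with integral coefficients). For `T = 1`, `a = 1`, `ℓ = L - 1` this is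
`tr (Y A_0 A_1 ⋯ A_{L-1})`, `Y` a generic `n_L × n_0` matrix: the trace of a product of generic
matrices.

The topological zeta function is defined as by Denef and Loeser, from the motivic zeta
function `Z_mot(T) = ∑_d [X_d] 𝕃 ^ (-m d) T ^ d` in `𝓜[[T]]`, `m` the number of the variables, `X_d` the
`d`-jets on which `f` has the order `d` (`zetaM f Set.univ {c | c ≠ 0}`), `𝓜` the
Grothendieck ring of complex varieties, localised at `𝕃`: `Z_top(s) = χ(Z_mot(𝕃 ^ (-s)))` for
`s = 1, 2, 3, …`. For this, let `E` be a homomorphism from `𝓜` to a domain `R` with `E(𝕃) ≠ 1`, such as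
the Hodge-Deligne polynomial `E(u, v)`, and `ε` a homomorphism from `R` to `ℂ` with `ε(E(𝕃)) = 1`, such
as `u, v ↦ 1`, so that `ε ∘ E` is the Euler characteristic `χ` (`IsTopZeta`).

No resolution is used. The jets are divided by the orders of the ideals of the entries of the
products; their recursion (`Tw3`, `t_ST3`, `t_RF`) uses as state the levels of the rows (the row `ρ` of
the first factor which does not yet have a unit) and the columns which are left; only the entries
of the rows at their levels (heads) are divided by `t`; if a head is a unit, a shear which depends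
also on entries of the next matrix moves its row to the next level. Everything is done uniformly in the
exponents `a_t`, and keeps the factors `𝕃 - 1` of the multiplicative group which acts on the heads;
so the motivic zeta function is in the ring generated by `T` and the
`(𝕃 - 1) / (1 - 𝕃 ^ (-ν) T ^ N)`, where the pairs `(-ν, N)` are the `(-ν(c), N(c))` and `(-1, a_t)`;
`c` runs over the chains `n_0 = c_0 ≥ c_1 ≥ ⋯ ≥ c_L` of possible ranks `c_{i+1}` of `A_0 ⋯ A_i` with some
`c_{ℓ_t+1} = 0`, `ν(c) = ∑_i (c_i - c_{i+1}) (n_{i+1} - c_{i+1})` is the codimension of the stratum and `N(c)` the sum of the `a_t` with `c_{ℓ_t+1} = 0` (`formPr`).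

The proof for the roots: a functional equation of `f` gives a functional equation of the product of
the powers `I_t ^ a_t` of the ideals `I_t` of the entries of `A_0 ⋯ A_{ℓ_t}`, with the same `b`; near a
general point of the stratum of `c` the ideal `I_t` is the ideal of the stratum, which is smooth, or
the unit ideal (`t_RO`), and the blow-up of the stratum gives `b(-ν(c) / N(c)) = 0`. The roots
`-1 / a_t` come from the strict transforms. -/

namespace Pool.Agent.Results.MP_a2a574_ag.MatrixProductForms

open MvPolynomial Pool.Agent.H628R4.TP Pool.Agent.TH192.DT Pool.Agent.TH192.MT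
  Pool.Agent.TH192.MU Pool.Agent.W428.MOT Pool.Agent.U397.TM

/-- **The topological zeta function of `f = ∏ t, F_t ^ a t`**, `F_t` the form
with the entries of the product `A_0 ⋯ A_{ℓ t}` of generic matrices as coefficients. There is exactly
one rational function `Z` with `Z(s) = ε(E(Z_mot(𝕃 ^ (-s))))` for `s = 1, 2, 3, …`; each of its poles `s₀`
is one of the `-ν(c) / N(c)` and `-1 / a t` and is a root of every `b` with
`b(s) f ^ s = P(s) f ^ (s + 1)`, `P(s)` in the Weyl algebra, in particular of the Bernstein-Sato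
polynomial of `f`. By the theorem of Malgrange and Kashiwara, `exp(2 π i s₀)` is then an eigenvalue of
the monodromy of `f` at some point. -/
theorem result (n : ℕ → ℕ) (L T : ℕ) (ℓ a : Fin T → ℕ) (h0 : 0 < n 0) (hn : Monotone n)
    (hℓ : ∀ t, ℓ t < L) (ha : ∀ t, 0 < a t)
    (R : Type) [CommRing R] [IsDomain R] (E : MK ℂ →+* R) (ε : R →+* ℂ)
    (hε : ε (E ((Lu ℂ : (MK ℂ)ˣ) : MK ℂ)) = 1) (hE : E ((Lu ℂ : (MK ℂ)ˣ) : MK ℂ) ≠ 1) :
    ∃ Z : RatFunc ℂ,
      IsTopZeta E ε (zetaM (map (Int.castRingHom ℂ) (form n L ℓ a)) Set.univ {c | c ≠ 0}) Z ∧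
      (∀ Z', IsTopZeta E ε
        (zetaM (map (Int.castRingHom ℂ) (form n L ℓ a)) Set.univ {c | c ≠ 0}) Z' → Z' = Z) ∧
      ∀ s₀ : ℂ, Z.denom.eval s₀ = 0 →
        (∃ q ∈ formPr n L ℓ a, s₀ = (q.1 : ℂ) / q.2) ∧
        ∀ b : Polynomial ℂ, IsBFunction (map (Int.castRingHom ℂ) (form n L ℓ a)) b →
          b.eval s₀ = 0 := by
  obtain ⟨Z, h1, h2, h3⟩ := form_topZ t_FR h0 hn L ℓ a hℓ ha Constr.univ E ε hε hE
  refine ⟨Z, h1, h2, fun s₀ hs => ?_⟩
  obtain ⟨q, hq, rfl⟩ := h3 s₀ hs
  exact ⟨⟨q, hq, rfl⟩, (t_FR n L T ℓ a h0 hn hℓ ha q hq).2.2.1⟩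

end Pool.Agent.Results.MP_a2a574_ag.MatrixProductForms
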